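import Pool.Agent.Helper87.MD.Goals
import Pool.Agent.Helper54.Lang.DYAD

/-!
# Project MD (MP_c307ca_nt), packet BLA: small divisors `g`
-/

set_option autoImplicit false

open Finset Filter
open scoped Classical

namespace Pool.Agent.Helper81.MD

open Pool.Agent.Helper98.Lang Pool.Agent.Helper87.MD

/-- the pairs `(a, q')` with a given product -/
lemma bl_count (hD : GDDM) {ξ c ε : ℝ} {s M d g R X : ℕ} {G : ℝ → ℝ} (hG0 : ∀ t, 0 ≤ G t)
    (hX : ∀ a q : ℕ, a ≤ M → g * q < 2 * R → a * q ≤ X)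
    (hG1 : ∀ t : ℝ, nd t ≤ eb c ε d g R → 1 ≤ G t) (hg : 1 ≤ g) :
    (SS ξ c ε s M d g R : ℝ) ≤ ∑ n ∈ Icc 1 X, G ((n : ℝ) * (s * ξ)) * DD n := by
  set S : Finset (ℕ × ℕ) := ((Icc 1 M) ×ˢ (Icc 1 (2 * R))).filter (fun x : ℕ × ℕ =>
    R ≤ g * x.2 ∧ g * x.2 < 2 * R ∧ nd ((s : ℝ) * x.1 * x.2 * ξ) ≤ eb c ε d g R) with hS
  have hmem : ∀ x ∈ S, (1 ≤ x.1 ∧ x.1 ≤ M) ∧ (1 ≤ x.2 ∧ x.2 ≤ 2 * R) ∧ R ≤ g * x.2 ∧
      g * x.2 < 2 * R ∧ nd ((s : ℝ) * x.1 * x.2 * ξ) ≤ eb c ε d g R := by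
    intro x hx
    rw [hS, mem_filter, mem_product, mem_Icc, mem_Icc] at hx
    exact ⟨hx.1.1, hx.1.2, hx.2⟩
  have h0 : SS ξ c ε s M d g R = S.card := rfl
  rw [h0]
  have h1 : (S.card : ℝ) = ∑ n ∈ Icc 1 X, ((S.filter (fun x => x.1 * x.2 = n)).card : ℝ) := by
    have : S.card = ∑ n ∈ Icc 1 X, (S.filter (fun x => x.1 * x.2 = n)).card := by
      refine Finset.card_eq_sum_card_fiberwise (f := fun x : ℕ × ℕ => x.1 * x.2) ?_
      intro x hx
      obtain ⟨h2, h3, h4, h5, h6⟩ := hmem x hx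
      rw [mem_coe, mem_Icc]
      exact ⟨Nat.mul_pos h2.1 h3.1, hX _ _ h2.2 h5⟩
    rw [this]
    push_cast
    rfl
  rw [h1]
  refine Finset.sum_le_sum fun n hn => ?_
  rw [mem_Icc] at hn
  set T := S.filter (fun x => x.1 * x.2 = n) with hT
  rcases T.eq_empty_or_nonempty with he | ⟨x0, hx0⟩
  · rw [he, card_empty, Nat.cast_zero]
    exact mul_nonneg (hG0 _) (Nat.cast_nonneg _)
  · have h2 : T.card ≤ DD n := by
      have h3 : T.card = (T.image Prod.snd).card := by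
        refine (Finset.card_image_of_injOn ?_).symm
        intro x hx y hy hxy
        rw [mem_coe, hT, mem_filter] at hx hy
        obtain ⟨h4, h5, -⟩ := hmem x hx.1
        have hxy' : x.2 = y.2 := hxy
        have h6 : x.1 * x.2 = y.1 * x.2 := by rw [hx.2, hxy', hy.2]
        have h7 : x.1 = y.1 := Nat.eq_of_mul_eq_mul_right (by omega) h6
        exact Prod.ext h7 hxy'
      rw [h3]
      refine hD.1 n _ (by omega) ?_ ?_
      · intro q hq
        rw [mem_image] at hq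
        obtain ⟨x, hx, rfl⟩ := hq
        rw [hT, mem_filter] at hx
        rw [Nat.mem_divisors]
        exact ⟨⟨x.1, by rw [← hx.2, mul_comm]⟩, by omega⟩
      · intro u hu v hv
        rw [mem_image] at hu hv
        obtain ⟨x, hx, rfl⟩ := hu
        obtain ⟨y, hy, rfl⟩ := hv
        rw [hT, mem_filter] at hx hy
        obtain ⟨-, -, -, h5, -⟩ := hmem x hx.1
        obtain ⟨-, -, h6, -, -⟩ := hmem y hy.1
        have h7 : g * x.2 < g * (2 * y.2) := by
          calc g * x.2 < 2 * R := h5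
            _ ≤ 2 * (g * y.2) := Nat.mul_le_mul_left _ h6
            _ = g * (2 * y.2) := by ring
        have h8 : x.2 < 2 * y.2 := Nat.lt_of_mul_lt_mul_left h7
        have h9 : (x.2 : ℝ) ≤ 2 * y.2 := by exact_mod_cast h8.le
        have h10 : (2 : ℝ) ≤ Real.exp 1 := by
          have := Real.add_one_le_exp (1 : ℝ); linarith
        have h11 : (0 : ℝ) ≤ y.2 := by positivity
        nlinarith
    have h3 : 1 ≤ G ((n : ℝ) * (s * ξ)) := by
      rw [hT, mem_filter] at hx0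
      obtain ⟨-, -, -, -, h6⟩ := hmem x0 hx0.1
      refine hG1 _ ?_
      have h7 : (n : ℝ) * (s * ξ) = (s : ℝ) * x0.1 * x0.2 * ξ := by
        rw [← hx0.2]; push_cast; ring
      rw [h7]
      exact h6
    have h4 : (T.card : ℝ) ≤ DD n := by exact_mod_cast h2
    have h5 : (0 : ℝ) ≤ DD n := Nat.cast_nonneg _
    nlinarith

/-- the trivial bound -/
lemma bl_triv {ξ c ε : ℝ} {s M d g R : ℕ} (hg : 1 ≤ g) (hgR : g ≤ R) :
    (SS ξ c ε s M d g R : ℝ) ≤ 2 * M * R / g := by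
  have hg0 : (0 : ℝ) < g := by exact_mod_cast hg
  have h1 : SS ξ c ε s M d g R ≤ M * (2 * R / g) := by
    have h2 : (((Icc 1 M) ×ˢ (Icc 1 (2 * R))).filter (fun x : ℕ × ℕ =>
        R ≤ g * x.2 ∧ g * x.2 < 2 * R ∧ nd ((s : ℝ) * x.1 * x.2 * ξ) ≤ eb c ε d g R)) ⊆
        (Icc 1 M) ×ˢ (Icc 1 (2 * R / g)) := by
      intro x hx
      rw [mem_filter, mem_product, mem_Icc, mem_Icc] at hx
      rw [mem_product, mem_Icc, mem_Icc]
      refine ⟨hx.1.1, hx.1.2.1, ?_⟩
      rw [Nat.le_div_iff_mul_le (by omega), mul_comm]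
      exact hx.2.2.1.le
    have h3 := Finset.card_le_card h2
    rw [card_product, Nat.card_Icc, Nat.card_Icc] at h3
    simpa [SS] using h3
  have h2 : (SS ξ c ε s M d g R : ℝ) ≤ M * ((2 * R / g : ℕ) : ℝ) := by exact_mod_cast h1
  refine h2.trans ?_
  have h3 : ((2 * R / g : ℕ) : ℝ) ≤ 2 * R / g := by
    refine (Nat.cast_div_le).trans ?_
    push_cast
    exact le_rfl
  calc (M : ℝ) * ((2 * R / g : ℕ) : ℝ) ≤ M * (2 * R / g) :=
        mul_le_mul_of_nonneg_left h3 (by positivity)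
    _ = 2 * M * R / g := by ring

/-- the numerical facts about the parameters -/
lemma bl_params {ε κ A c C α k : ℝ} (hε : 0 < ε) (hκ : 0 < κ) (hκA : κ ≤ A) (hc : 0 < c)
    (hC : 0 < C) (hα : 0 ≤ α) (hk : 0 < k) (z0 : ℕ) : ∀ᶠ K : ℕ in atTop, 3 ≤ K ∧
      1 ≤ κ * Real.log K ∧ 1 ≤ Real.log K ∧
      3 + C * (K : ℝ) ^ (α + 4 * k + k / 2) ≤ (K : ℝ) ^ (α + 5 * k) ∧
      (∃ z : ℕ, z0 ≤ z ∧ 1 ≤ z ∧ (z : ℝ) ≤ (K : ℝ) ^ k ∧ (K : ℝ) ^ (k / 2) ≤ z) ∧
      ∀ R : ℕ, (K : ℝ) ^ κ ≤ R → (R : ℝ) ≤ (K : ℝ) ^ A →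
        1 < (R : ℝ) ∧ (κ * Real.log K) ^ (1 + ε) ≤ LL ε R ∧ LL ε R ≤ 2 * c * (K : ℝ) ^ k := by
  have hA : 0 < A := lt_of_lt_of_le hκ hκA
  filter_upwards [dy_pow (max z0 1) k hk, dy_pow 2 (k / 2) (by positivity),
    dy_log (A ^ (1 + ε) / (2 * c)) (1 + ε) k hk, dy_pow 6 k hk,
    dy_pow (2 * C) (k / 2) (by positivity), eventually_ge_atTop 3,
    (tendsto_natCast_atTop_atTop.eventually
      (Real.tendsto_log_atTop.eventually_ge_atTop (1 / κ))),
    (tendsto_natCast_atTop_atTop.eventually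
      (Real.tendsto_log_atTop.eventually_ge_atTop 1))] with K h1 h2 h3 h4 h5 h6 h7 h8
  have hK3 : (3 : ℝ) ≤ K := by exact_mod_cast h6
  have hK0 : (0 : ℝ) < K := by linarith
  have hK1 : (1 : ℝ) ≤ K := by linarith
  have hlK : 0 < Real.log K := Real.log_pos (by linarith)
  have hκK : 1 ≤ κ * Real.log K := by
    have := mul_le_mul_of_nonneg_left h7 hκ.le
    rwa [mul_one_div, div_self hκ.ne'] at this
  refine ⟨h6, hκK, h8, ?_, ?_, ?_⟩
  · have e1 : (K : ℝ) ^ (α + 5 * k) = (K : ℝ) ^ (k / 2) * (K : ℝ) ^ (α + 4 * k + k / 2) := by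
      rw [← Real.rpow_add hK0]; congr 1; ring
    have e2 : (K : ℝ) ^ k ≤ (K : ℝ) ^ (α + 5 * k) :=
      Real.rpow_le_rpow_of_exponent_le hK1 (by linarith)
    have e3 : 2 * C * (K : ℝ) ^ (α + 4 * k + k / 2) ≤ (K : ℝ) ^ (α + 5 * k) := by
      rw [e1]
      exact mul_le_mul_of_nonneg_right h5 (by positivity)
    linarith
  · refine ⟨⌊(K : ℝ) ^ k⌋₊, Nat.le_floor ((le_max_left _ _).trans h1), ?_,
      Nat.floor_le (by positivity), ?_⟩
    · have : ((1 : ℕ) : ℝ) ≤ (K : ℝ) ^ k := by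
        push_cast; exact (le_max_right _ _).trans h1
      exact Nat.le_floor this
    · have e1 : (K : ℝ) ^ k < (⌊(K : ℝ) ^ k⌋₊ : ℝ) + 1 := Nat.lt_floor_add_one _
      have e2 : (K : ℝ) ^ k = (K : ℝ) ^ (k / 2) * (K : ℝ) ^ (k / 2) := by
        rw [← Real.rpow_add hK0]; congr 1; ring
      have e3 : (1 : ℝ) ≤ (K : ℝ) ^ (k / 2) := Real.one_le_rpow hK1 (by positivity)
      have e4 : (K : ℝ) ^ (k / 2) * 2 ≤ (K : ℝ) ^ (k / 2) * (K : ℝ) ^ (k / 2) :=
        mul_le_mul_of_nonneg_left h2 (by linarith)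
      linarith
  · intro R hR1 hR2
    have hKκ : (1 : ℝ) < (K : ℝ) ^ κ := Real.one_lt_rpow (by linarith) hκ
    have hR3 : (1 : ℝ) < R := lt_of_lt_of_le hKκ hR1
    have hR0 : (0 : ℝ) < R := by linarith
    have hlR : 0 < Real.log R := Real.log_pos hR3
    have hlR1 : κ * Real.log K ≤ Real.log R := by
      have := Real.log_le_log (by positivity) hR1
      rwa [Real.log_rpow hK0] at this
    have hlR2 : Real.log R ≤ A * Real.log K := by
      have := Real.log_le_log hR0 hR2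
      rwa [Real.log_rpow hK0] at this
    refine ⟨hR3, Real.rpow_le_rpow (by positivity) hlR1 (by linarith), ?_⟩
    have hL2 : LL ε R ≤ A ^ (1 + ε) * Real.log K ^ (1 + ε) := by
      rw [← Real.mul_rpow hA.le hlK.le]
      exact Real.rpow_le_rpow hlR.le hlR2 (by linarith)
    have e1 : A ^ (1 + ε) / (2 * c) * Real.log K ^ (1 + ε) =
      (A ^ (1 + ε) * Real.log K ^ (1 + ε)) / (2 * c) := by ring
    rw [e1, div_le_iff₀ (by positivity)] at h3
    linarith

/-- **BLA**, from the general statements. -/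
theorem bla0 : GFej → GNT → GDDM → BlaStmt := by
  intro hF hNT hD ξ hξ ε η κ A c α hε hη hκ hκA hc hα hα1
  have hA : 0 < A := lt_of_lt_of_le hκ hκA
  obtain ⟨k, hk⟩ : ∃ k : ℝ, k = min κ (1 - α) / 40 := ⟨_, rfl⟩
  have hk0 : 0 < k := by
    rw [hk]; have : 0 < min κ (1 - α) := lt_min hκ (by linarith)
    positivity
  have hkκ : 40 * k ≤ κ := by
    rw [hk]; have := min_le_left κ (1 - α); linarith
  have hkα : 40 * k ≤ 1 - α := by
    rw [hk]; have := min_le_right κ (1 - α); linarith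
  obtain ⟨δ, hδ⟩ : ∃ δ : ℝ, δ = k / (2 * (A + 3)) := ⟨_, rfl⟩
  have hδ0 : 0 < δ := by rw [hδ]; positivity
  have hδk : (A + 3) * δ = k / 2 := by rw [hδ]; field_simp
  have hδ1 : δ ≤ 1 := by nlinarith
  obtain ⟨C, hC, hFG⟩ := hF ξ hξ δ hδ0
  obtain ⟨A', hA'⟩ : ∃ A' : ℕ, A' = ⌈2 * (A + 2) / k⌉₊ := ⟨_, rfl⟩
  obtain ⟨C1, z0, hC1, hN1⟩ := hNT A' η hη
  obtain ⟨N0, hN0⟩ := eventually_atTop.1 (bl_params hε hκ hκA hc hC hα hk0 z0)
  refine ⟨(24 * c * C1 + 4 * c) / κ ^ (1 + ε), N0, by positivity, ?_⟩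
  intro M d s g R hNN hs hsα hgd hgk hR1 hR2
  rw [← hk] at hgk
  obtain ⟨K, hKdef⟩ : ∃ K : ℕ, K = M * d := ⟨_, rfl⟩
  rw [← hKdef] at hNN hsα hgk hR1 hR2 ⊢
  obtain ⟨hK3n, hκK, hlK1, hE, ⟨z, hz0, hz1, hzk, hkz⟩, hRall⟩ := hN0 K hNN
  obtain ⟨hR3, hLκ, hLk⟩ := hRall R hR1 hR2
  have hK3 : (3 : ℝ) ≤ K := by exact_mod_cast hK3n
  have hK0 : (0 : ℝ) < K := by linarith
  have hK1 : (1 : ℝ) ≤ K := by linarith
  have hlK : 0 < Real.log K := by linarith
  have hR0 : (0 : ℝ) < R := by linarith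
  obtain ⟨L, hL⟩ : ∃ L : ℝ, L = LL ε R := ⟨_, rfl⟩
  rw [← hL] at hLκ hLk
  have hL1 : 1 ≤ L := le_trans (Real.one_le_rpow hκK (by linarith)) hLκ
  have hL0 : 0 < L := by linarith
  have hMd : M ≠ 0 ∧ d ≠ 0 := by
    constructor
    · rintro rfl; rw [zero_mul] at hKdef; omega
    · rintro rfl; rw [mul_zero] at hKdef; omega
  have hM1 : (1 : ℝ) ≤ M := by exact_mod_cast Nat.one_le_iff_ne_zero.2 hMd.1
  have hd1 : (1 : ℝ) ≤ d := by exact_mod_cast Nat.one_le_iff_ne_zero.2 hMd.2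
  have hg : 1 ≤ g := Nat.pos_of_dvd_of_pos hgd (Nat.pos_of_ne_zero hMd.2)
  have hg1 : (1 : ℝ) ≤ g := by exact_mod_cast hg
  have hg0 : (0 : ℝ) < g := by linarith
  have hKr : (K : ℝ) = M * d := by rw [hKdef]; push_cast; ring
  have hMK : (M : ℝ) ≤ K := by rw [hKr]; nlinarith
  have hdg : ((d / g : ℕ) : ℝ) = (d : ℝ) / g := Nat.cast_div hgd hg0.ne'
  have hdg1 : (1 : ℝ) ≤ (d : ℝ) / g := by
    rw [← hdg]
    have : 1 ≤ d / g := Nat.div_pos (Nat.le_of_dvd (Nat.pos_of_ne_zero hMd.2) hgd) hg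
    exact_mod_cast this
  have hgR : g ≤ R := by
    have : (g : ℝ) ≤ R := hgk.trans ((Real.rpow_le_rpow_of_exponent_le hK1 (by linarith)).trans hR1)
    exact_mod_cast this
  -- the threshold
  obtain ⟨e, he⟩ : ∃ e : ℝ, e = eb c ε d g R := ⟨_, rfl⟩
  have he' : e = c * (d / g) / (R * L) := by rw [he, hL, eb, hdg]
  have he0 : 0 < e := by rw [he']; positivity
  have heM : e * (M * R / g) = c * K / (g ^ 2 * L) := by
    rw [he', hKr]; field_simp
  have hlogs : K / (g ^ 2 * L) ≤ (K : ℝ) / (g ^ 2 * (κ * Real.log K) ^ (1 + ε)) := by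
    refine div_le_div_of_nonneg_left hK0.le (by positivity) ?_
    exact mul_le_mul_of_nonneg_left hLκ (by positivity)
  have hlη : (1 : ℝ) ≤ Real.log K ^ η := Real.one_le_rpow hlK1 hη.le
  have hfin : (K : ℝ) / (g ^ 2 * (κ * Real.log K) ^ (1 + ε)) * Real.log K ^ η =
      1 / κ ^ (1 + ε) * (K * Real.log K ^ (η - 1 - ε) / g ^ 2) := by
    rw [Real.mul_rpow hκ.le hlK.le]
    have e5 : Real.log K ^ η = Real.log K ^ (η - 1 - ε) * Real.log K ^ (1 + ε) := by
      rw [← Real.rpow_add hlK]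
      congr 1
      ring
    rw [e5]
    have e6 : 0 < Real.log K ^ (1 + ε) := Real.rpow_pos_of_pos hlK _
    have e7 : 0 < κ ^ (1 + ε) := Real.rpow_pos_of_pos hκ _
    field_simp
  have hgoal : ∀ B : ℝ, 0 ≤ B → B ≤ 24 * c * C1 + 4 * c →
      B * (K / (g ^ 2 * L) * Real.log K ^ η) ≤
      (24 * c * C1 + 4 * c) / κ ^ (1 + ε) * K * Real.log K ^ (η - 1 - ε) / g ^ 2 := by
    intro B hB0 hB
    calc B * (K / (g ^ 2 * L) * Real.log K ^ η) ≤
          (24 * c * C1 + 4 * c) * (K / (g ^ 2 * (κ * Real.log K) ^ (1 + ε)) * Real.log K ^ η) := by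
          refine mul_le_mul hB (mul_le_mul_of_nonneg_right hlogs (by positivity)) (by positivity)
            (by positivity)
      _ = _ := by rw [hfin]; ring
  by_cases hbig : 1 / 2 < e
  · -- the trivial bound
    refine (bl_triv hg hgR).trans ?_
    refine le_trans ?_ (hgoal (4 * c) (by positivity) (by nlinarith [mul_pos hc hC1]))
    have e1 : 2 * (M : ℝ) * R / g ≤ 4 * (e * (M * R / g)) := by
      have : 0 ≤ (M : ℝ) * R / g := by positivity
      have e2 : 2 * (M : ℝ) * R / g = 2 * (M * R / g) := by ring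
      rw [e2]; nlinarith
    rw [heM] at e1
    refine e1.trans ?_
    have e3 : 4 * (c * K / (g ^ 2 * L)) = 4 * c * (K / (g ^ 2 * L) * 1) := by ring
    rw [e3]
    refine mul_le_mul_of_nonneg_left ?_ (by positivity)
    exact mul_le_mul_of_nonneg_left hlη (by positivity)
  · rw [not_lt] at hbig
    -- `H`
    have hx1 : 1 ≤ 1 / (2 * e) := by
      rw [le_div_iff₀ (by positivity)]; linarith
    obtain ⟨H, hH⟩ : ∃ H : ℕ, H = ⌊1 / (2 * e)⌋₊ := ⟨_, rfl⟩
    have hH1 : 1 ≤ H := by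
      rw [hH, Nat.one_le_floor_iff]
      exact hx1
    have hH0 : (0 : ℝ) < H := by exact_mod_cast hH1
    have hH1' : (1 : ℝ) ≤ H := by exact_mod_cast hH1
    have hHle : (H : ℝ) ≤ 1 / (2 * e) := by rw [hH]; exact Nat.floor_le (by positivity)
    have hHlt : 1 / (2 * e) < H + 1 := by rw [hH]; exact Nat.lt_floor_add_one _
    have hHlo : 2 * e ≤ 1 / H := by
      rw [le_div_iff₀ hH0]
      rw [le_div_iff₀ (by positivity)] at hHle
      linarith
    have hHhi : 1 / (H : ℝ) ≤ 4 * e := by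
      rw [div_le_iff₀ hH0]
      rw [div_lt_iff₀ (by positivity)] at hHlt
      nlinarith
    have hHe : e ≤ 1 / (2 * H) := by
      rw [le_div_iff₀ (by positivity)]
      rw [le_div_iff₀ (by positivity)] at hHle
      linarith
    have hHN : (H : ℝ) ≤ (K : ℝ) ^ (A + 1) := by
      refine hHle.trans ?_
      rw [div_le_iff₀ (by positivity), he']
      rw [Real.rpow_add hK0, Real.rpow_one]
      have e1 : R * L ≤ (K : ℝ) ^ A * (2 * c * K) := by
        refine mul_le_mul hR2 (hLk.trans ?_) hL0.le (by positivity)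
        refine mul_le_mul_of_nonneg_left ?_ (by positivity)
        calc (K : ℝ) ^ k ≤ (K : ℝ) ^ (1 : ℝ) :=
              Real.rpow_le_rpow_of_exponent_le hK1 (by linarith)
          _ = K := Real.rpow_one _
      have e2 : (K : ℝ) ^ A * K * (2 * (c * (d / g) / (R * L))) =
          ((K : ℝ) ^ A * (2 * c * K)) * (d / g) / (R * L) := by ring
      rw [e2, le_div_iff₀ (by positivity), one_mul]
      calc R * L ≤ (K : ℝ) ^ A * (2 * c * K) * 1 := by rw [mul_one]; exact e1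
        _ ≤ _ := mul_le_mul_of_nonneg_left hdg1 (by positivity)
    obtain ⟨G, c0, hG0, hG3, hG1, hc01, hc02, hGM⟩ := hFG H hH1
    -- `X`
    obtain ⟨X, hXd⟩ : ∃ X : ℕ, X = 2 * M * R / g := ⟨_, rfl⟩
    have hXle : (X : ℝ) ≤ 2 * M * R / g := by
      rw [hXd]
      refine (Nat.cast_div_le).trans ?_
      push_cast
      exact le_rfl
    have hXge : (M : ℝ) * R / g ≤ X := by
      have e1 : (2 * (M : ℝ) * R / g) < X + 1 := by
        rw [div_lt_iff₀ hg0, hXd]
        have := Nat.lt_mul_div_succ (2 * M * R) (show 0 < g by omega)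
        have e2 : ((2 * M * R : ℕ) : ℝ) < ((g * (2 * M * R / g + 1) : ℕ) : ℝ) := by
          exact_mod_cast this
        push_cast at e2
        linarith
      have e2 : (1 : ℝ) ≤ M * R / g := by
        rw [le_div_iff₀ hg0, one_mul]
        have : (g : ℝ) ≤ R := by exact_mod_cast hgR
        nlinarith
      have e3 : (2 * (M : ℝ) * R / g) = 2 * (M * R / g) := by ring
      rw [e3] at e1
      linarith
    have hcount := bl_count hD (ξ := ξ) (c := c) (ε := ε) (s := s) (M := M) (d := d) (g := g)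
      (R := R) (X := X) hG0 (fun a q ha hq => by
        rw [hXd, Nat.le_div_iff_mul_le (by omega)]
        calc a * q * g = a * (g * q) := by ring
          _ ≤ M * (2 * R) := Nat.mul_le_mul ha hq.le
          _ = 2 * M * R := by ring) (fun t ht => hG1 t (by
            rw [← he] at ht
            exact ht.trans hHe)) hg
    refine hcount.trans ?_
    -- the level of distribution
    have hlev : Lev X (fun n => G (n * (s * ξ))) (c0 * X) ((K : ℝ) ^ (α + 5 * k)) z := by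
      refine dy_lev (ξ := s * ξ) (C := C * (s : ℝ) ^ (1 + δ)) (δ := δ) hH1 hG0 hc01 hc02 ?_
        (by positivity) ?_
      · intro m N hm
        have e1 := hGM (m * s) N (Nat.mul_pos hm hs)
        have e2 : ((m * s : ℕ) : ℝ) * ξ = m * (s * ξ) := by push_cast; ring
        rw [e2] at e1
        refine e1.trans (le_of_eq ?_)
        push_cast
        rw [Real.mul_rpow (by positivity) (by positivity)]
        ring
      · intro m hm1 hm2
        have hm0 : (1 : ℝ) ≤ m := by exact_mod_cast hm1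
        have a1 : (m : ℝ) ^ (1 + δ) ≤ (K : ℝ) ^ (4 * k) := by
          calc (m : ℝ) ^ (1 + δ) ≤ (m : ℝ) ^ (2 : ℝ) :=
                Real.rpow_le_rpow_of_exponent_le hm0 (by linarith)
            _ = (m : ℝ) ^ 2 := by rw [Real.rpow_ofNat]
            _ ≤ ((z : ℝ) ^ 2) ^ 2 := by
                refine pow_le_pow_left₀ (by linarith) ?_ 2
                exact_mod_cast hm2
            _ = (z : ℝ) ^ 4 := by ring
            _ ≤ ((K : ℝ) ^ k) ^ 4 := pow_le_pow_left₀ (by positivity) hzk 4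
            _ = (K : ℝ) ^ (4 * k) := by
                rw [← Real.rpow_natCast, ← Real.rpow_mul hK0.le]
                congr 1; push_cast; ring
        have a2 : (H : ℝ) ^ δ ≤ (K : ℝ) ^ ((A + 1) * δ) := by
          rw [Real.rpow_mul hK0.le]
          exact Real.rpow_le_rpow hH0.le hHN hδ0.le
        have a3 : (s : ℝ) ^ (1 + δ) ≤ (K : ℝ) ^ (α * (1 + δ)) := by
          rw [Real.rpow_mul hK0.le]
          exact Real.rpow_le_rpow (by positivity) hsα (by linarith)
        have a4 : C * (s : ℝ) ^ (1 + δ) * (H : ℝ) ^ δ * (m : ℝ) ^ (1 + δ) ≤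
            C * (K : ℝ) ^ (α + 4 * k + k / 2) := by
          have b1 : (s : ℝ) ^ (1 + δ) * (H : ℝ) ^ δ * (m : ℝ) ^ (1 + δ) ≤
              (K : ℝ) ^ (α * (1 + δ)) * (K : ℝ) ^ ((A + 1) * δ) * (K : ℝ) ^ (4 * k) := by
            gcongr
          rw [← Real.rpow_add hK0, ← Real.rpow_add hK0] at b1
          have b2 : (K : ℝ) ^ (α * (1 + δ) + (A + 1) * δ + 4 * k) ≤
              (K : ℝ) ^ (α + 4 * k + k / 2) := by
            refine Real.rpow_le_rpow_of_exponent_le hK1 ?_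
            nlinarith
          calc C * (s : ℝ) ^ (1 + δ) * (H : ℝ) ^ δ * (m : ℝ) ^ (1 + δ) =
                C * ((s : ℝ) ^ (1 + δ) * (H : ℝ) ^ δ * (m : ℝ) ^ (1 + δ)) := by ring
            _ ≤ _ := mul_le_mul_of_nonneg_left (b1.trans b2) hC.le
        linarith
    -- sizes
    have hc0 : 0 < c0 := lt_of_lt_of_le (by positivity) hc01
    have hYlow : (K : ℝ) ^ (1 - 3 * k) ≤ c0 * X := by
      have e1 : 2 * e * (M * R / g) ≤ c0 * X :=
        mul_le_mul (hHlo.trans hc01) hXge (by positivity) hc0.le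
      have e2 : 2 * e * (M * R / g) = 2 * c * K / (g ^ 2 * L) := by
        have : 2 * e * (M * R / g) = 2 * (e * (M * R / g)) := by ring
        rw [this, heM]; ring
      refine le_trans ?_ (e2 ▸ e1)
      rw [le_div_iff₀ (by positivity)]
      have e3 : (g : ℝ) ^ 2 * L ≤ ((K : ℝ) ^ k) ^ 2 * (2 * c * (K : ℝ) ^ k) := by
        refine mul_le_mul (pow_le_pow_left₀ (by positivity) hgk 2) hLk hL0.le (by positivity)
      calc (K : ℝ) ^ (1 - 3 * k) * (g ^ 2 * L) ≤
            (K : ℝ) ^ (1 - 3 * k) * (((K : ℝ) ^ k) ^ 2 * (2 * c * (K : ℝ) ^ k)) :=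
            mul_le_mul_of_nonneg_left e3 (by positivity)
        _ = 2 * c * ((K : ℝ) ^ (1 - 3 * k) * ((K : ℝ) ^ k * (K : ℝ) ^ k * (K : ℝ) ^ k)) := by ring
        _ = 2 * c * K := by
            rw [← Real.rpow_add hK0, ← Real.rpow_add hK0, ← Real.rpow_add hK0]
            have : 1 - 3 * k + (k + k + k) = 1 := by ring
            rw [this, Real.rpow_one]
    have hz4 : (z : ℝ) ^ 4 ≤ (K : ℝ) ^ (4 * k) := by
      calc (z : ℝ) ^ 4 ≤ ((K : ℝ) ^ k) ^ 4 := pow_le_pow_left₀ (by positivity) hzk 4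
        _ = (K : ℝ) ^ (4 * k) := by
            rw [← Real.rpow_natCast, ← Real.rpow_mul hK0.le]
            congr 1; push_cast; ring
    have hXz : X ≤ z ^ A' := by
      have e1 : (X : ℝ) ≤ (z : ℝ) ^ A' := by
        calc (X : ℝ) ≤ 2 * M * R / g := hXle
          _ ≤ 2 * M * R := div_le_self (by positivity) hg1
          _ ≤ K * K * (K : ℝ) ^ A := by
              refine mul_le_mul ?_ hR2 hR0.le (by positivity)
              nlinarith
          _ = (K : ℝ) ^ (A + 2) := by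
              rw [Real.rpow_add hK0, Real.rpow_ofNat]; ring
          _ ≤ (K : ℝ) ^ (k / 2 * A') := by
              refine Real.rpow_le_rpow_of_exponent_le hK1 ?_
              have := Nat.le_ceil (2 * (A + 2) / k)
              rw [← hA', div_le_iff₀ hk0] at this
              linarith
          _ = ((K : ℝ) ^ (k / 2)) ^ A' := by
              rw [Real.rpow_mul hK0.le, Real.rpow_natCast]
          _ ≤ (z : ℝ) ^ A' := pow_le_pow_left₀ (by positivity) hkz _
      exact_mod_cast e1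
    have h1 := hN1 z X (fun n => G (n * (s * ξ))) (c0 * X)
      ((K : ℝ) ^ (α + 5 * k)) hz0 hXz hlev (fun n => hG3 _) ?_ ?_
    · refine h1.trans ?_
      have e1 : Real.log z ^ η ≤ Real.log K ^ η := by
        have hzr : (1 : ℝ) ≤ z := by exact_mod_cast hz1
        refine Real.rpow_le_rpow (Real.log_nonneg hzr) ?_ hη.le
        refine Real.log_le_log (by linarith) (hzk.trans ?_)
        calc (K : ℝ) ^ k ≤ (K : ℝ) ^ (1 : ℝ) :=
              Real.rpow_le_rpow_of_exponent_le hK1 (by linarith)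
          _ = K := Real.rpow_one _
      have e2 : c0 * X ≤ 24 * c * (K / (g ^ 2 * L)) := by
        have b1 : c0 ≤ 12 * e := by
          calc c0 ≤ 3 / H := hc02
            _ = 3 * (1 / H) := by ring
            _ ≤ 3 * (4 * e) := mul_le_mul_of_nonneg_left hHhi (by norm_num)
            _ = 12 * e := by ring
        calc c0 * X ≤ 12 * e * (2 * M * R / g) := mul_le_mul b1 hXle (by positivity) (by positivity)
          _ = 24 * (e * (M * R / g)) := by ring
          _ = _ := by rw [heM]; ring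
      calc C1 * (c0 * X) * Real.log z ^ η ≤
            C1 * (24 * c * (K / (g ^ 2 * L))) * Real.log K ^ η := by
            refine mul_le_mul (mul_le_mul_of_nonneg_left e2 hC1.le) e1 ?_ (by positivity)
            exact Real.rpow_nonneg (Real.log_natCast_nonneg z) _
        _ = 24 * c * C1 * (K / (g ^ 2 * L) * Real.log K ^ η) := by ring
        _ ≤ _ := hgoal _ (by positivity) (by linarith)
    · refine hz4.trans (le_trans ?_ hYlow)
      exact Real.rpow_le_rpow_of_exponent_le hK1 (by linarith)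
    · calc (z : ℝ) ^ 4 * (K : ℝ) ^ (α + 5 * k) ≤ (K : ℝ) ^ (4 * k) * (K : ℝ) ^ (α + 5 * k) :=
            mul_le_mul_of_nonneg_right hz4 (by positivity)
        _ = (K : ℝ) ^ (4 * k + (α + 5 * k)) := by rw [← Real.rpow_add hK0]
        _ ≤ (K : ℝ) ^ (1 - 3 * k) := Real.rpow_le_rpow_of_exponent_le hK1 (by linarith)
        _ ≤ _ := hYlow

end Pool.Agent.Helper81.MD
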