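import Pool.Agent.Helper81.MD.BLA0
import Pool.Agent.Helper98.Lang.Asm0
import Pool.Agent.Helper98.Lang.Pref

/-!
# Project MD (MP_c307ca_nt), packet BLA: the theorem
-/

set_option autoImplicit false

namespace Pool.Agent.Helper81.MD

open Pool.Agent.Helper98.Lang Pool.Agent.Helper87.MD

/-- **BLA.** -/
theorem bla : BlaStmt := bla0 Pool.Agent.Helper8.Lang.fej (ntAll pref98 ddm98) ddm98

end Pool.Agent.Helper81.MD
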