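import Pool.Agent.Helper87.MD.Goals

/-!
# Project MD (MP_c307ca_nt), packet LAT: the lattice lemma
-/

set_option autoImplicit false

open Finset
open scoped Classical

namespace Pool.Agent.Helper81.MD

open Pool.Agent.Helper98.Lang Pool.Agent.Helper87.MD

lemma nd_le_of_int (x : ℝ) (k : ℤ) : nd x ≤ |x - k| := round_le x k

/-- **LAT.** The lattice lemma. -/
theorem lat : LatStmt := by
  intro ξ hξ δ hδ
  obtain ⟨c1, hc1, hR⟩ := hξ δ hδ
  refine ⟨8 + (1 / c1) ^ ((1 : ℝ) / 2) + (2 / c1) ^ ((1 : ℝ) / 2), by positivity, ?_⟩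
  intro s X η hs hX hη
  obtain ⟨θ, hθ⟩ : ∃ θ : ℝ, θ = s * ξ := ⟨_, rfl⟩
  rw [← hθ]
  obtain ⟨S, hS⟩ : ∃ S : Finset ℕ, S = (Icc 1 X).filter (fun x : ℕ => nd ((x : ℝ) * θ) ≤ η) :=
    ⟨_, rfl⟩
  rw [← hS]
  have hmem : ∀ x ∈ S, 1 ≤ x ∧ x ≤ X ∧ nd ((x : ℝ) * θ) ≤ η := by
    intro x hx
    rw [hS, mem_filter, mem_Icc] at hx
    exact ⟨hx.1.1, hx.1.2, hx.2⟩
  have hX0 : (1 : ℝ) ≤ X := by exact_mod_cast hX
  have hs0 : (1 : ℝ) ≤ s := by exact_mod_cast hs
  have hRs : ∀ x : ℕ, 1 ≤ x → c1 * ((s : ℝ) * x) ^ (-(1 + δ)) ≤ nd ((x : ℝ) * θ) := by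
    intro x hx
    have h1 := hR (x * s) (Nat.mul_pos hx hs)
    have e1 : ((x * s : ℕ) : ℝ) = s * x := by push_cast; ring
    have e2 : (s : ℝ) * x * ξ = x * θ := by rw [hθ]; ring
    rwa [e1, e2] at h1
  rcases S.eq_empty_or_nonempty with he | ⟨x0, hx0⟩
  · rw [he, card_empty, Nat.cast_zero]
    positivity
  obtain ⟨hx01, hx0X, hx0η⟩ := hmem x0 hx0
  -- the first direction
  have hex : ∃ w : ℕ, 1 ≤ w ∧ nd ((w : ℝ) * θ) ≤ 2 * η := ⟨x0, hx01, by linarith⟩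
  obtain ⟨w, hw⟩ : ∃ w : ℕ, w = Nat.find hex := ⟨_, rfl⟩
  obtain ⟨hw1, hwη⟩ : 1 ≤ w ∧ nd ((w : ℝ) * θ) ≤ 2 * η := by rw [hw]; exact Nat.find_spec hex
  have hwmin : ∀ u : ℕ, 1 ≤ u → nd ((u : ℝ) * θ) ≤ 2 * η → w ≤ u := by
    intro u hu1 hu2
    rw [hw]
    exact Nat.find_min' hex ⟨hu1, hu2⟩
  have hwX : w ≤ X := (hwmin x0 hx01 (by linarith)).trans hx0X
  have hw0 : (1 : ℝ) ≤ w := by exact_mod_cast hw1
  obtain ⟨ρ, hρ⟩ : ∃ ρ : ℝ, ρ = nd ((w : ℝ) * θ) := ⟨_, rfl⟩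
  rw [← hρ] at hwη
  have hρR : c1 * ((s : ℝ) * w) ^ (-(1 + δ)) ≤ ρ := by rw [hρ]; exact hRs w hw1
  have hρ0 : 0 < ρ := lt_of_lt_of_le (by positivity) hρR
  -- residues
  obtain ⟨r, hr⟩ : ∃ r : ℕ → ℝ, r = fun x : ℕ => (x : ℝ) * θ - round ((x : ℝ) * θ) := ⟨_, rfl⟩
  have hrη : ∀ x ∈ S, |r x| ≤ η := by
    intro x hx
    rw [hr]
    exact (hmem x hx).2.2
  have hdiff : ∀ x ∈ S, ∀ y ∈ S, x < y → nd (((y - x : ℕ) : ℝ) * θ) ≤ |r y - r x| := by
    intro x _ y _ hxy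
    have h1 := nd_le_of_int (((y - x : ℕ) : ℝ) * θ) (round ((y : ℝ) * θ) - round ((x : ℝ) * θ))
    refine h1.trans (le_of_eq ?_)
    rw [hr, Nat.cast_sub hxy.le]
    push_cast
    congr 1
    ring
  have hdw : ∀ x ∈ S, ∀ y ∈ S, x < y → w ≤ y - x := by
    intro x hx y hy hxy
    refine hwmin _ (by omega) ((hdiff x hx y hy hxy).trans ?_)
    have h1 := hrη x hx
    have h2 := hrη y hy
    rw [abs_le] at h1 h2 ⊢
    constructor <;> linarith
  have hgap : ∀ x ∈ S, ∀ y ∈ S, x < y → |r y - r x| < ρ → 1 ≤ 2 * ρ * ((y : ℝ) - x) := by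
    intro x hx y hy hxy hlt
    have h1 := hdw x hx y hy hxy
    have h2 : (w : ℝ) ≤ y - x := by
      have : ((w : ℕ) : ℝ) ≤ ((y - x : ℕ) : ℝ) := by exact_mod_cast h1
      rwa [Nat.cast_sub hxy.le] at this
    obtain ⟨U, hU⟩ : ∃ U : ℤ, U = round ((y : ℝ) * θ) - round ((x : ℝ) * θ) := ⟨_, rfl⟩
    obtain ⟨W, hW⟩ : ∃ W : ℤ, W = round ((w : ℝ) * θ) := ⟨_, rfl⟩
    have hUr : (U : ℝ) = (y - x) * θ - (r y - r x) := by
      rw [hU, hr]; push_cast; ring
    obtain ⟨p, hp⟩ : ∃ p : ℝ, p = (w : ℝ) * θ - W := ⟨_, rfl⟩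
    have hpρ : |p| = ρ := by rw [hp, hρ, hW]; rfl
    have hz : (((w : ℤ) * U - ((y : ℤ) - x) * W : ℤ) : ℝ) = -(w * (r y - r x)) + (y - x) * p := by
      push_cast
      rw [hUr, hp]; ring
    obtain ⟨z, hzd⟩ : ∃ z : ℤ, z = (w : ℤ) * U - ((y : ℤ) - x) * W := ⟨_, rfl⟩
    rw [← hzd] at hz
    have hyx : (0 : ℝ) < (y : ℝ) - x := by linarith
    have h3 : |(w : ℝ) * (r y - r x)| < w * ρ := by
      rw [abs_mul, abs_of_nonneg (by linarith : (0 : ℝ) ≤ w)]
      exact mul_lt_mul_of_pos_left hlt (by linarith)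
    have h4 : |((y : ℝ) - x) * p| = (y - x) * ρ := by
      rw [abs_mul, hpρ, abs_of_pos hyx]
    have h5 : w * ρ ≤ (y - x) * ρ := mul_le_mul_of_nonneg_right h2 hρ0.le
    have hz0 : z ≠ 0 := by
      intro h0
      rw [h0, Int.cast_zero] at hz
      have h6 : ((y : ℝ) - x) * p = w * (r y - r x) := by linarith
      rw [h6] at h4
      linarith
    have hz1 : (1 : ℝ) ≤ |(z : ℝ)| := by
      have := Int.one_le_abs hz0
      exact_mod_cast this
    rw [hz] at hz1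
    have h7 := abs_add_le (-((w : ℝ) * (r y - r x))) (((y : ℝ) - x) * p)
    rw [abs_neg, h4] at h7
    linarith
  -- first bound
  have hN1 : (S.card : ℝ) ≤ X / w + 1 := by
    have h1 : S.card ≤ (Icc 0 (X / w)).card := by
      refine Finset.card_le_card_of_injOn (fun x => x / w) ?_ ?_
      · intro x hx
        rw [mem_coe, mem_Icc]
        exact ⟨Nat.zero_le _, Nat.div_le_div_right (hmem x hx).2.1⟩
      · have key : ∀ x ∈ S, ∀ y ∈ S, x < y → x / w ≠ y / w := by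
          intro x hx y hy hxy h
          have h2 := hdw x hx y hy hxy
          have h3 : x / w + 1 ≤ y / w := by
            rw [← Nat.add_div_right x (by omega : 0 < w)]
            exact Nat.div_le_div_right (by omega)
          omega
        intro x hx y hy hxy
        rw [mem_coe] at hx hy
        have hxy' : x / w = y / w := hxy
        rcases lt_trichotomy x y with h | h | h
        · exact absurd hxy' (key x hx y hy h)
        · exact h
        · exact absurd hxy'.symm (key y hy x hx h)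
    rw [Nat.card_Icc] at h1
    have h2 : (S.card : ℝ) ≤ ((X / w : ℕ) : ℝ) + 1 := by
      have : (S.card : ℝ) ≤ ((X / w + 1 - 0 : ℕ) : ℝ) := by exact_mod_cast h1
      rw [Nat.sub_zero] at this
      push_cast at this
      exact this
    have h3 : ((X / w : ℕ) : ℝ) ≤ X / w := Nat.cast_div_le
    linarith
  -- second bound
  have hN2 : (S.card : ℝ) ≤ (2 * η / ρ + 1) * (2 * ρ * X + 1) := by
    have h1 : S.card ≤ ((Icc 0 ⌊2 * η / ρ⌋₊) ×ˢ (Icc 0 ⌊2 * ρ * X⌋₊)).card := by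
      refine Finset.card_le_card_of_injOn (fun x => (⌊(r x + η) / ρ⌋₊, ⌊2 * ρ * x⌋₊)) ?_ ?_
      · intro x hx
        rw [mem_coe, mem_product, mem_Icc, mem_Icc]
        have h2 := hrη x hx
        rw [abs_le] at h2
        have h3 : (x : ℝ) ≤ X := by exact_mod_cast (hmem x hx).2.1
        refine ⟨⟨Nat.zero_le _, Nat.floor_le_floor ?_⟩, Nat.zero_le _, Nat.floor_le_floor ?_⟩
        · exact div_le_div_of_nonneg_right (by linarith) hρ0.le
        · exact mul_le_mul_of_nonneg_left h3 (by positivity)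
      · have fl : ∀ a b : ℝ, 0 ≤ a → 0 ≤ b → ⌊a⌋₊ = ⌊b⌋₊ → |b - a| < 1 := by
          intro a b ha hb h
          have h1 := Nat.floor_le ha
          have h2 := Nat.floor_le hb
          have h3 := Nat.lt_floor_add_one a
          have h4 := Nat.lt_floor_add_one b
          rw [h] at h1 h3
          rw [abs_lt]
          constructor <;> linarith
        have key : ∀ x ∈ S, ∀ y ∈ S, x < y → ⌊(r x + η) / ρ⌋₊ = ⌊(r y + η) / ρ⌋₊ →
            ⌊2 * ρ * (x : ℝ)⌋₊ = ⌊2 * ρ * (y : ℝ)⌋₊ → False := by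
          intro x hx y hy hxy h1 h2
          have a1 := hrη x hx
          have a2 := hrη y hy
          rw [abs_le] at a1 a2
          have b1 := fl _ _ (div_nonneg (by linarith) hρ0.le) (div_nonneg (by linarith) hρ0.le) h1
          have b2 := fl _ _ (by positivity) (by positivity) h2
          have b3 : |r y - r x| < ρ := by
            have e : (r y + η) / ρ - (r x + η) / ρ = (r y - r x) / ρ := by ring
            rw [e, abs_div, abs_of_pos hρ0, div_lt_one hρ0] at b1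
            exact b1
          have b4 := hgap x hx y hy hxy b3
          have b5 := (abs_lt.1 b2).2
          have b6 : 2 * ρ * (y : ℝ) - 2 * ρ * x = 2 * ρ * (y - x) := by ring
          linarith
        intro x hx y hy hxy
        rw [mem_coe] at hx hy
        have h1 : ⌊(r x + η) / ρ⌋₊ = ⌊(r y + η) / ρ⌋₊ := congrArg Prod.fst hxy
        have h2 : ⌊2 * ρ * (x : ℝ)⌋₊ = ⌊2 * ρ * (y : ℝ)⌋₊ := congrArg Prod.snd hxy
        rcases lt_trichotomy x y with h | h | h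
        · exact (key x hx y hy h h1 h2).elim
        · exact h
        · exact (key y hy x hx h h1.symm h2.symm).elim
    rw [card_product, Nat.card_Icc, Nat.card_Icc, Nat.sub_zero, Nat.sub_zero] at h1
    have h2 : (S.card : ℝ) ≤ ((⌊2 * η / ρ⌋₊ : ℝ) + 1) * ((⌊2 * ρ * X⌋₊ : ℝ) + 1) := by
      exact_mod_cast h1
    refine h2.trans ?_
    have h3 : (⌊2 * η / ρ⌋₊ : ℝ) ≤ 2 * η / ρ := Nat.floor_le (by positivity)
    have h4 : (⌊2 * ρ * X⌋₊ : ℝ) ≤ 2 * ρ * X := Nat.floor_le (by positivity)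
    exact mul_le_mul (by linarith) (by linarith) (by positivity) (by positivity)
  -- combination
  obtain ⟨B, hB⟩ : ∃ B : ℝ, B = η * ((s : ℝ) * X) ^ (1 + δ) := ⟨_, rfl⟩
  rw [← hB]
  have hB0 : 0 < B := by rw [hB]; positivity
  have hmin : (S.card : ℝ) ≤ 8 * (η * X) + 1 + min (2 * η / ρ) (X / w) := by
    rcases le_total (2 * η / ρ) ((X : ℝ) / w) with h | h
    · rw [min_eq_left h]
      have e1 : (2 * η / ρ + 1) * (2 * ρ * X + 1) = 4 * (η * X) + 2 * η / ρ + 2 * ρ * X + 1 := by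
        field_simp
        ring
      have e2 : 2 * ρ * X ≤ 4 * (η * X) := by nlinarith
      linarith
    · rw [min_eq_right h]
      have : 0 ≤ η * X := by positivity
      linarith
  have hsq : min (2 * η / ρ) ((X : ℝ) / w) ≤ (2 / c1) ^ ((1 : ℝ) / 2) * B ^ ((1 : ℝ) / 2) := by
    rw [← Real.mul_rpow (by positivity) hB0.le]
    have a0 : 0 ≤ min (2 * η / ρ) ((X : ℝ) / w) := le_min (by positivity) (by positivity)
    have a1 : min (2 * η / ρ) ((X : ℝ) / w) ^ 2 ≤ 2 / c1 * B := by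
      have b1 : min (2 * η / ρ) ((X : ℝ) / w) ^ 2 ≤ (2 * η / ρ) * (X / w) := by
        rw [sq]
        exact mul_le_mul (min_le_left _ _) (min_le_right _ _) a0 (by positivity)
      refine b1.trans ?_
      have b2 : c1 * (((s : ℝ) * X) ^ (1 + δ))⁻¹ * X ≤ ρ * w := by
        have d1 : (((s : ℝ) * w) ^ (1 + δ))⁻¹ * w = (s : ℝ)⁻¹ * (((s : ℝ) * w) ^ δ)⁻¹ := by
          have hsw : (0 : ℝ) < (s : ℝ) * w := by positivity
          rw [Real.rpow_add hsw, Real.rpow_one]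
          field_simp
        have d2 : (((s : ℝ) * X) ^ (1 + δ))⁻¹ * X = (s : ℝ)⁻¹ * (((s : ℝ) * X) ^ δ)⁻¹ := by
          have hsX : (0 : ℝ) < (s : ℝ) * X := by positivity
          rw [Real.rpow_add hsX, Real.rpow_one]
          field_simp
        have hwX' : (w : ℝ) ≤ X := by exact_mod_cast hwX
        have d3 : (((s : ℝ) * X) ^ δ)⁻¹ ≤ (((s : ℝ) * w) ^ δ)⁻¹ := by
          refine inv_anti₀ (by positivity) ?_
          refine Real.rpow_le_rpow (by positivity) ?_ hδ.le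
          exact mul_le_mul_of_nonneg_left hwX' (by positivity)
        calc c1 * (((s : ℝ) * X) ^ (1 + δ))⁻¹ * X = c1 * ((((s : ℝ) * X) ^ (1 + δ))⁻¹ * X) := by ring
          _ = c1 * ((s : ℝ)⁻¹ * (((s : ℝ) * X) ^ δ)⁻¹) := by rw [d2]
          _ ≤ c1 * ((s : ℝ)⁻¹ * (((s : ℝ) * w) ^ δ)⁻¹) := by
              refine mul_le_mul_of_nonneg_left ?_ hc1.le
              exact mul_le_mul_of_nonneg_left d3 (by positivity)
          _ = c1 * ((((s : ℝ) * w) ^ (1 + δ))⁻¹ * w) := by rw [d1]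
          _ = c1 * ((s : ℝ) * w) ^ (-(1 + δ)) * w := by
              rw [Real.rpow_neg (by positivity)]; ring
          _ ≤ ρ * w := mul_le_mul_of_nonneg_right hρR (by positivity)
      have b3 : 2 * η / ρ * (X / w) = 2 * η * X / (ρ * w) := by
        field_simp
      rw [b3, div_le_iff₀ (by positivity)]
      have b4 : 2 / c1 * B * (c1 * (((s : ℝ) * X) ^ (1 + δ))⁻¹ * X) = 2 * η * X := by
        rw [hB]
        have : (0 : ℝ) < ((s : ℝ) * X) ^ (1 + δ) := by positivity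
        field_simp
      rw [← b4]
      exact mul_le_mul_of_nonneg_left b2 (by positivity)
    calc min (2 * η / ρ) ((X : ℝ) / w) = (min (2 * η / ρ) ((X : ℝ) / w) ^ 2) ^ ((1 : ℝ) / 2) := by
          rw [← Real.rpow_natCast, ← Real.rpow_mul a0]
          norm_num
      _ ≤ _ := Real.rpow_le_rpow (by positivity) a1 (by norm_num)
  have hone : (1 : ℝ) ≤ (1 / c1) ^ ((1 : ℝ) / 2) * B ^ ((1 : ℝ) / 2) := by
    rw [← Real.mul_rpow (by positivity) hB0.le]
    refine Real.one_le_rpow ?_ (by norm_num)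
    have h1 := (hRs x0 hx01).trans hx0η
    have hx0' : (1 : ℝ) ≤ x0 := by exact_mod_cast hx01
    have hx0X' : (x0 : ℝ) ≤ X := by exact_mod_cast hx0X
    rw [Real.rpow_neg (by positivity), ← div_eq_mul_inv, div_le_iff₀ (by positivity)] at h1
    have h2 : η * ((s : ℝ) * x0) ^ (1 + δ) ≤ B := by
      rw [hB]
      refine mul_le_mul_of_nonneg_left ?_ hη.le
      refine Real.rpow_le_rpow (by positivity) ?_ (by linarith)
      exact mul_le_mul_of_nonneg_left hx0X' (by positivity)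
    rw [one_div, inv_mul_eq_div, le_div_iff₀ hc1]
    linarith
  have hηX : 0 ≤ η * X := by positivity
  have hBs : 0 ≤ B ^ ((1 : ℝ) / 2) := by positivity
  have p1 : 0 ≤ (1 / c1) ^ ((1 : ℝ) / 2) := by positivity
  have p2 : 0 ≤ (2 / c1) ^ ((1 : ℝ) / 2) := by positivity
  have hfin : (8 + (1 / c1) ^ ((1 : ℝ) / 2) + (2 / c1) ^ ((1 : ℝ) / 2)) *
      (η * X + B ^ ((1 : ℝ) / 2)) = 8 * (η * X) + (1 / c1) ^ ((1 : ℝ) / 2) * B ^ ((1 : ℝ) / 2) +
      (2 / c1) ^ ((1 : ℝ) / 2) * B ^ ((1 : ℝ) / 2) + (8 * B ^ ((1 : ℝ) / 2) +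
      ((1 / c1) ^ ((1 : ℝ) / 2) + (2 / c1) ^ ((1 : ℝ) / 2)) * (η * X)) := by ring
  rw [hfin]
  have q : 0 ≤ 8 * B ^ ((1 : ℝ) / 2) +
      ((1 / c1) ^ ((1 : ℝ) / 2) + (2 / c1) ^ ((1 : ℝ) / 2)) * (η * X) := by positivity
  linarith

end Pool.Agent.Helper81.MD
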